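import Pool.Agent.H584R2.Dg.Main

/-!
Every infinite word generated by iterating a non-erasing dgsm is generated by a 3-tape machine
working simultaneously in space `O(√n)` and time `O(n √n)`.
-/

namespace Pool.Agent.Results.MP_5d512e_lc.SqrtSpace

open Pool.Agent.H584R2.Dg

/-- Let `w = lim τ^n(a)` for a non-erasing dgsm `τ` over a finite alphabet `S`. There is one
generating machine `M` with three working tapes and a constant `K` such that `M` generates `w` and

* `T_M(n) ≤ K n √n` and `S_M(n) ≤ K √n` for all `n ≥ 1`;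
* if `n ≤ |τ^(l+1)(a)|`, then `T_M(n) ≤ K n (l + 1)` and `S_M(n) ≤ K (l + 1)`;
* if `n ≤ |τ^(l+1)(a)|`, then `T_M(n) ≤ K n D` and `S_M(n) ≤ K D` for
  `D = |τ^(l+1)(a)| - |τ^l(a)|`;
* if the growth satisfies `|τ^l(a)| ≥ c l^d` for all `l ≥ 1` (`c, d > 0` real), then
  `S_M(n) ≤ K' n^(1/d)` for all `n ≥ 1` and some constant `K'`. -/
theorem result {S : Type} [Finite S] (τ : Dgsm S) (hne : τ.NonErasing) (a : S) (w : ℕ → S)
    (hw : τ.IsLimit a w) :
    ∃ (M : Machine 3 S) (K : ℝ), M.Generates w ∧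
      (∀ n : ℕ, 1 ≤ n → (M.T n : ℝ) ≤ K * (n * √n) ∧ M.SpaceLE n (K * √n)) ∧
      (∀ n l : ℕ, 1 ≤ n → n ≤ (τ.map^[l + 1] [a]).length →
        (M.T n : ℝ) ≤ K * (n * (l + 1)) ∧ M.SpaceLE n (K * (l + 1))) ∧
      (∀ n l : ℕ, 1 ≤ n → n ≤ (τ.map^[l + 1] [a]).length →
        (M.T n : ℝ) ≤ K * (n * ((τ.map^[l + 1] [a]).length - (τ.map^[l] [a]).length)) ∧
          M.SpaceLE n (K * ((τ.map^[l + 1] [a]).length - (τ.map^[l] [a]).length))) ∧
      ∀ c d : ℝ, 0 < c → 0 < d →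
        (∀ l : ℕ, 1 ≤ l → c * (l : ℝ) ^ d ≤ (τ.map^[l] [a]).length) →
          ∃ K' : ℝ, ∀ n : ℕ, 1 ≤ n → M.SpaceLE n (K' * (n : ℝ) ^ (1 / d)) := by
  obtain ⟨h1, h2, h3⟩ := hw
  -- the word `u` with `τ(a) = a u`
  obtain ⟨u, hu⟩ : ∃ u, τ.out τ.init a = a :: u := by
    obtain ⟨u, hu⟩ := h1
    refine ⟨u, ?_⟩
    simpa [Dgsm.map, Dgsm.run] using hu.symm
  set s₀ := τ.next τ.init a with hs₀
  have hO : ∀ l, τ.map^[l] [a] = Ow τ a u s₀ l := fun l => iter_eq hu hs₀ l
  have hune : u ≠ [] := by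
    rintro rfl
    obtain ⟨n, hn⟩ := h2 2
    have h4 : ∀ l, τ.map^[l] [a] = [a] := by
      intro l
      induction l with
      | zero => rfl
      | succ l ih =>
        rw [Function.iterate_succ_apply', ih]
        simp [Dgsm.map, Dgsm.run, hu]
    rw [h4 n] at hn
    simp at hn
  obtain ⟨B, hB⟩ : ∃ B, ∀ q x, (τ.out q x).length ≤ B := by
    haveI := τ.finQ
    obtain ⟨B, hB⟩ := (Set.finite_range (fun z : τ.Q × S => (τ.out z.1 z.2).length)).bddAbove
    exact ⟨B, fun q x => hB ⟨(q, x), rfl⟩⟩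
  have huB : u.length ≤ B := by
    have := hB τ.init a
    rw [hu] at this
    simp at this
    omega
  have hgen := gen (s₀ := s₀) hne hB hune huB (w := w) (fun l => by rw [← hO l]; exact h3 l)
  have hS : ∀ {n Bd l₀ : ℕ}, Good τ a u s₀ n Bd l₀ →
      (mach τ a u s₀ B).SpaceLE n (((u.length + 9) * Bd : ℕ) : ℝ) :=
    fun hG => S_le hne hB hune huB hG
  have hT : ∀ {n Bd l₀ : ℕ}, 1 ≤ n → Good τ a u s₀ n Bd l₀ →
      (mach τ a u s₀ B).T n ≤ (2 * u.length + 92) * Bd * n :=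
    fun hn hG => T_le hne hB hune huB hn hG
  have hSmono : ∀ {n : ℕ} {s s' : ℝ}, s ≤ s' → (mach τ a u s₀ B).SpaceLE n s →
      (mach τ a u s₀ B).SpaceLE n s' := fun hs h t ht i =>
    ⟨(h t ht i).1.trans_le hs, fun j hj => (h t ht i).2 j (hs.trans hj)⟩
  refine ⟨mach τ a u s₀ B, 2 * (2 * u.length + 92), hgen, ?_, ?_, ?_, ?_⟩
  · intro n hn
    have hn' : (1 : ℝ) ≤ √n := by
      rw [Real.one_le_sqrt]; exact_mod_cast hn
    have hB2 : ((⌈√(n : ℝ)⌉₊ : ℕ) : ℝ) ≤ 2 * √n := by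
      have := (Nat.ceil_lt_add_one (Real.sqrt_nonneg (n : ℝ))).le
      linarith
    have hG : Good τ a u s₀ n ⌈√(n : ℝ)⌉₊ n := by
      refine ⟨?_, ?_, .inl ?_⟩
      · have : 0 < ⌈√(n : ℝ)⌉₊ := Nat.ceil_pos.2 (by linarith)
        omega
      · have := lt_Ow (a := a) (s₀ := s₀) hne hune (n + 1)
        omega
      · have h5 := Nat.le_ceil (√(n : ℝ))
        have h6 : (n : ℝ) ≤ (⌈√(n : ℝ)⌉₊ : ℝ) ^ 2 := by
          calc (n : ℝ) = √n ^ 2 := (Real.sq_sqrt (Nat.cast_nonneg n)).symm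
            _ ≤ _ := pow_le_pow_left₀ (Real.sqrt_nonneg _) h5 2
        exact_mod_cast h6
    constructor
    · have h5 : ((mach τ a u s₀ B).T n : ℝ)
          ≤ (2 * u.length + 92) * (⌈√(n : ℝ)⌉₊ : ℝ) * n := by exact_mod_cast hT hn hG
      refine h5.trans ?_
      have h6 : (0 : ℝ) ≤ (2 * u.length + 92) * n := by positivity
      nlinarith
    · refine hSmono ?_ (hS hG)
      push_cast
      have h6 : (0 : ℝ) ≤ (u.length : ℝ) := by positivity
      nlinarith
  · intro n l hn hl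
    rw [hO] at hl
    have hG : Good τ a u s₀ n (l + 1) l := ⟨by omega, hl, .inr (.inl le_rfl)⟩
    constructor
    · have h5 : ((mach τ a u s₀ B).T n : ℝ) ≤ (2 * u.length + 92) * (l + 1) * n := by
        exact_mod_cast hT hn hG
      refine h5.trans ?_
      have h6 : (0 : ℝ) ≤ (2 * u.length + 92) * (l + 1) * n := by positivity
      nlinarith
    · refine hSmono ?_ (hS hG)
      push_cast
      have h6 : (0 : ℝ) ≤ (u.length : ℝ) := by positivity
      have h7 : (0 : ℝ) ≤ (l : ℝ) := by positivity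
      nlinarith
  · intro n l hn hl
    rw [hO, hO] 
    rw [hO] at hl
    have hG : Good τ a u s₀ n (bl τ u s₀ l).1.length l :=
      ⟨bl_pos hne hune l, hl, .inr (.inr le_rfl)⟩
    rw [length_Ow_succ]
    push_cast
    rw [add_sub_cancel_left]
    constructor
    · have h5 : ((mach τ a u s₀ B).T n : ℝ)
          ≤ (2 * u.length + 92) * ((bl τ u s₀ l).1.length : ℝ) * n := by exact_mod_cast hT hn hG
      refine h5.trans ?_
      have h6 : (0 : ℝ) ≤ (2 * u.length + 92) * ((bl τ u s₀ l).1.length : ℝ) * n := by positivity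
      nlinarith
    · refine hSmono ?_ (hS hG)
      push_cast
      have h6 : (0 : ℝ) ≤ (u.length : ℝ) := by positivity
      have h7 : (0 : ℝ) ≤ ((bl τ u s₀ l).1.length : ℝ) := by positivity
      nlinarith
  · intro c d hc hd hgrowth
    refine ⟨(u.length + 9) * (c⁻¹ ^ (1 / d) + 1), fun n hn => ?_⟩
    have hex : ∃ l, n ≤ (Ow τ a u s₀ (l + 1)).length :=
      ⟨n, (by have := lt_Ow (a := a) (s₀ := s₀) hne hune (n + 1); omega)⟩
    classical
    set l := Nat.find hex with hl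
    have hl1 : n ≤ (Ow τ a u s₀ (l + 1)).length := Nat.find_spec hex
    have hl2 : (l : ℝ) ≤ c⁻¹ ^ (1 / d) * (n : ℝ) ^ (1 / d) := by
      rcases Nat.eq_zero_or_pos l with h0 | h0
      · rw [h0]
        push_cast
        positivity
      · have h5 := Nat.find_min hex (show l - 1 < Nat.find hex by omega)
        rw [show l - 1 + 1 = l by omega, ← hO] at h5
        have h6 := hgrowth l h0
        have h7 : c * (l : ℝ) ^ d ≤ n := by
          refine h6.trans ?_
          exact_mod_cast (not_le.1 h5).le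
        have h8 : (l : ℝ) ^ d ≤ c⁻¹ * n := by
          rw [inv_mul_eq_div, le_div_iff₀ hc]
          linarith
        calc (l : ℝ) = ((l : ℝ) ^ d) ^ (1 / d) := by
              rw [← Real.rpow_mul (Nat.cast_nonneg l), mul_one_div_cancel hd.ne', Real.rpow_one]
          _ ≤ (c⁻¹ * n) ^ (1 / d) :=
              Real.rpow_le_rpow (by positivity) h8 (by positivity)
          _ = _ := Real.mul_rpow (by positivity) (by positivity)
    have hn1 : (1 : ℝ) ≤ (n : ℝ) ^ (1 / d) :=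
      Real.one_le_rpow (by exact_mod_cast hn) (by positivity)
    refine hSmono ?_ (hS (Bd := l + 1) ⟨by omega, hl1, .inr (.inl le_rfl)⟩)
    push_cast
    have h6 : (0 : ℝ) ≤ (u.length : ℝ) + 9 := by positivity
    have h7 : (l : ℝ) + 1 ≤ (c⁻¹ ^ (1 / d) + 1) * (n : ℝ) ^ (1 / d) := by
      rw [add_mul, one_mul]
      linarith
    calc ((u.length : ℝ) + 9) * ((l : ℝ) + 1)
        ≤ ((u.length : ℝ) + 9) * ((c⁻¹ ^ (1 / d) + 1) * (n : ℝ) ^ (1 / d)) :=
          mul_le_mul_of_nonneg_left h7 h6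
      _ = _ := by ring

end Pool.Agent.Results.MP_5d512e_lc.SqrtSpace
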